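import Pool.Agent.H55.QE.Targets

/-! Row FIN3E of the board `qe_modules`. -/

set_option autoImplicit false

namespace Pool.Agent.H67.QE

open Matrix Finset
open H43.PS
open Pool.Agent.H1.LP (Clause viol supp ip kk)
open Pool.Agent.H55.QE

theorem rp_le3 {a b : ℝ} (h : a ≤ b) : (2 : ℝ) ^ a ≤ (2 : ℝ) ^ b :=
  Real.rpow_le_rpow_of_exponent_le (by norm_num) h

theorem pow_four_le : ∀ B : ℕ, 16 ≤ B → B ^ 4 ≤ 2 ^ B := by
  intro B hB
  induction B, hB using Nat.le_induction with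
  | base => norm_num
  | succ k hk ih =>
    rw [pow_succ 2 k]
    have h1 : (k + 1) ^ 4 ≤ 2 * k ^ 4 := by
      have e : (k + 1) ^ 4 = k ^ 4 + 4 * k ^ 3 + 6 * k ^ 2 + 4 * k + 1 := by ring
      rw [e]
      have h2 : 16 * k ^ 3 ≤ k ^ 4 := by
        calc 16 * k ^ 3 ≤ k * k ^ 3 := Nat.mul_le_mul_right _ hk
          _ = k ^ 4 := by ring
      have h3 : 16 * k ^ 2 ≤ k ^ 3 := by
        calc 16 * k ^ 2 ≤ k * k ^ 2 := Nat.mul_le_mul_right _ hk
          _ = k ^ 3 := by ring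
      have h4 : 16 * k ≤ k ^ 2 := by
        calc 16 * k ≤ k * k := Nat.mul_le_mul_right _ hk
          _ = k ^ 2 := by ring
      omega
    omega

theorem sq_le_rpow (B : ℕ) (hB : 16 ≤ B) : (B : ℝ) * B ≤ (2 : ℝ) ^ ((B : ℝ) / 2) := by
  have h1 : ((B : ℝ)) ^ 4 ≤ (2 : ℝ) ^ B := by exact_mod_cast pow_four_le B hB
  have h2 : ((2 : ℝ) ^ ((B : ℝ) / 2)) ^ 2 = (2 : ℝ) ^ B := by
    rw [← Real.rpow_natCast, ← Real.rpow_mul (by norm_num), ← Real.rpow_natCast]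
    congr 1
    push_cast
    ring
  have h3 : ((B : ℝ) * B) ^ 2 ≤ ((2 : ℝ) ^ ((B : ℝ) / 2)) ^ 2 := by
    rw [h2]
    calc ((B : ℝ) * B) ^ 2 = (B : ℝ) ^ 4 := by ring
      _ ≤ _ := h1
  exact (pow_le_pow_iff_left₀ (by positivity) (Real.rpow_nonneg (by norm_num) _)
    (by norm_num)).1 h3

theorem height_ok (B E : ℕ) (hE : 1 ≤ E) (hB : 18 * E ≤ B) :
    1 / (12 * (E : ℝ)) * (B : ℝ) ≤ ((((B / E) / 3 - 3) / 2 : ℕ) : ℝ) + 1 := by
  have hE' : (0 : ℝ) < (E : ℝ) := by exact_mod_cast hE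
  have h1 : (B / E) / 3 = B / (3 * E) := by
    rw [Nat.div_div_eq_div_mul, Nat.mul_comm]
  rw [h1]
  obtain ⟨u, hu⟩ : ∃ u, u = B / (3 * E) := ⟨_, rfl⟩
  rw [← hu]
  have h2 : B < (u + 1) * (3 * E) := by
    have := Nat.lt_div_mul_add (a := B) (show 0 < 3 * E by omega)
    rw [← hu] at this
    linarith [this, add_mul u 1 (3 * E)]
  have h3 : u ≤ 2 * ((u - 3) / 2) + 4 := by omega
  have h3' : (u : ℝ) ≤ 2 * (((u - 3) / 2 : ℕ) : ℝ) + 4 := by exact_mod_cast h3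
  have h2' : (B : ℝ) ≤ ((u : ℝ) + 1) * (3 * (E : ℝ)) := by exact_mod_cast h2.le
  have hB' : 18 * (E : ℝ) ≤ (B : ℝ) := by exact_mod_cast hB
  rw [one_div, inv_mul_le_iff₀ (by positivity)]
  nlinarith

theorem pf_FIN3E (hC : S_CORE3E) (hN : S_NUM3) (hX : H96.KX.S_X3) : S_FIN3E := by
  classical
  intro ε hε
  obtain ⟨R0, E, B0, hR0, hE, h⟩ := hX ε hε
  have hE' : (0 : ℝ) < (E : ℝ) := by exact_mod_cast hE
  obtain ⟨q, σ, hq, hσ, hP⟩ := hN (1 / (12 * (E : ℝ))) (by positivity)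
  have hq0 : 0 < q := by omega
  have hq' : (0 : ℝ) < (q : ℝ) := by exact_mod_cast hq0
  have hq2 : (2 : ℝ) ≤ (q : ℝ) := by exact_mod_cast hq
  refine ⟨1 / (16 * (q : ℝ)), by positivity, 4 * R0, 1 / (16 * (q : ℝ)), by positivity,
    (B0 + 18 * E + R0 * (2 * q) ^ 3 + 100) * q, ?_⟩
  intro n hn
  obtain ⟨B, hB⟩ : ∃ B, B = n / q := ⟨_, rfl⟩
  have hBge : B0 + 18 * E + R0 * (2 * q) ^ 3 + 100 ≤ B := by
    rw [hB]
    exact (Nat.le_div_iff_mul_le hq0).2 hn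
  have hBn : B * q ≤ n := by
    rw [hB]
    exact Nat.div_mul_le_self n q
  have hnB : n < (B + 1) * q := by
    have := Nat.lt_div_mul_add (a := n) hq0
    rw [← hB] at this
    linarith [this, add_mul B 1 q]
  have ht9 : 9 ≤ B / E := (Nat.le_div_iff_mul_le hE).2 (by omega)
  obtain ⟨T, Ys, hT, hA, hz⟩ := h B (by omega)
  obtain ⟨Y, m, phi, hY, h1, h2⟩ := hC B (R0 * B) (B / E) q n ε T Ys
    (Nat.one_le_iff_ne_zero.2 (Nat.mul_ne_zero (by omega) (by omega))) ht9 hq0 hBn hT hA hz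
  have hB100 : (100 : ℝ) ≤ (B : ℝ) := by
    have : 100 ≤ B := by omega
    exact_mod_cast this
  -- the exponent
  obtain ⟨x, hx⟩ : ∃ x : ℝ, x = 1 / (16 * (q : ℝ)) * (n : ℝ) := ⟨_, rfl⟩
  have hx1 : 16 * x ≤ (B : ℝ) + 1 := by
    have h5 : (n : ℝ) ≤ ((B : ℝ) + 1) * q := by exact_mod_cast hnB.le
    have h6 : 16 * x = (n : ℝ) / q := by
      rw [hx]
      field_simp
    rw [h6, div_le_iff₀ hq']
    exact h5
  have hx0 : 0 ≤ x := by
    rw [hx]
    positivity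
  have hBn2 : (B : ℝ) * 2 ≤ (n : ℝ) := by
    have h5 : B * 2 ≤ n := le_trans (Nat.mul_le_mul_left B hq) hBn
    exact_mod_cast h5
  have hBle : B ≤ n := by
    have h5 : B * 2 ≤ n := le_trans (Nat.mul_le_mul_left B hq) hBn
    omega
  have hY' : (0 : ℝ) < (Y : ℝ) := by exact_mod_cast hY
  rw [← hx]
  refine ⟨Y, m, phi, hY, ?_, ?_⟩
  · intro a
    obtain ⟨ha1, ha2, ha3, ha4⟩ := h1 a
    refine ⟨ha1, ?_, ha3, ha4⟩
    calc m a ≤ 4 * (R0 * B) := ha2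
      _ = 4 * R0 * B := by ring
      _ ≤ 4 * R0 * n := Nat.mul_le_mul_left _ hBle
  · intro M P hW
    obtain ⟨A, hA'⟩ : ∃ A, A = univ.filter (fun a => CertifiedBy P (phi a)
      ((2 : ℝ) ^ (-x)) ((2 : ℝ) ^ (-(n : ℝ))) ((2 : ℝ) ^ x)) := ⟨_, rfl⟩
    have h2B : ((2 : ℝ) ^ B) = (2 : ℝ) ^ (B : ℝ) := (Real.rpow_natCast _ _).symm
    have hgoal : (A.card : ℝ) ≤ (2 : ℝ) ^ (-x) * Y := by
      have h3 := h2 M P A ((2 : ℝ) ^ (-x)) ((2 : ℝ) ^ (-(n : ℝ))) ((2 : ℝ) ^ x) ((2 : ℝ) ^ x)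
        (5 / 4) σ (Real.rpow_pos_of_pos (by norm_num) _) ?_ (by norm_num) (by norm_num) hσ
        (fun a ha => by
          rw [hA'] at ha
          exact (mem_filter.1 ha).2) hW
      · have hpx : (0 : ℝ) < (2 : ℝ) ^ x := Real.rpow_pos_of_pos (by norm_num) _
        have hpx1 : (1 : ℝ) ≤ (2 : ℝ) ^ x := Real.one_le_rpow (by norm_num) hx0
        -- the size
        have hr : 2 * (2 : ℝ) ^ x + 1 ≤ 2 ^ B := by
          rw [h2B]
          calc 2 * (2 : ℝ) ^ x + 1 ≤ 4 * (2 : ℝ) ^ x := by linarith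
            _ = (2 : ℝ) ^ (2 : ℝ) * (2 : ℝ) ^ x := by norm_num
            _ = (2 : ℝ) ^ ((2 : ℝ) + x) := by rw [Real.rpow_add (by norm_num)]
            _ ≤ (2 : ℝ) ^ (B : ℝ) := by
                apply rp_le3
                linarith
        obtain ⟨mm, hmm⟩ : ∃ mm : ℝ,
          mm = ((R0 * B : ℕ) : ℝ) * (2 * (q : ℝ)) ^ 3 * (2 : ℝ) ^ x + 1 := ⟨_, rfl⟩
        have hm1 : 1 ≤ mm := by
          rw [hmm]
          have : 0 ≤ ((R0 * B : ℕ) : ℝ) * (2 * (q : ℝ)) ^ 3 * (2 : ℝ) ^ x := by positivity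
          linarith
        have hm2 : mm ≤ (2 : ℝ) ^ (1 + (B : ℝ) / 2 + x) := by
          have h5 : ((R0 * B : ℕ) : ℝ) * (2 * (q : ℝ)) ^ 3 ≤ (B : ℝ) * B := by
            have h6 : (R0 * B) * (2 * q) ^ 3 ≤ B * B := by
              calc (R0 * B) * (2 * q) ^ 3 = (R0 * (2 * q) ^ 3) * B := by ring
                _ ≤ B * B := Nat.mul_le_mul_right B (by omega)
            exact_mod_cast h6
          have h7 := h5.trans (sq_le_rpow B (by omega))
          have h8 : (1 : ℝ) ≤ (2 : ℝ) ^ ((B : ℝ) / 2) := Real.one_le_rpow (by norm_num) (by positivity)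
          rw [Real.rpow_add (by norm_num), Real.rpow_add (by norm_num), hmm, Real.rpow_one]
          have h9 : ((R0 * B : ℕ) : ℝ) * (2 * (q : ℝ)) ^ 3 * (2 : ℝ) ^ x ≤
              (2 : ℝ) ^ ((B : ℝ) / 2) * (2 : ℝ) ^ x := mul_le_mul_of_nonneg_right h7 hpx.le
          have h10 : (1 : ℝ) ≤ (2 : ℝ) ^ ((B : ℝ) / 2) * (2 : ℝ) ^ x := by
            calc (1 : ℝ) = 1 * 1 := by ring
              _ ≤ _ := mul_le_mul h8 hpx1 (by norm_num) (by linarith)
          linarith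
        have hm3 : mm ≤ 2 ^ B := by
          rw [h2B]
          refine hm2.trans (rp_le3 ?_)
          linarith
        have h6m : 6 * mm ≤ ((2 : ℝ) ^ (-x)) ^ 2 * 4 ^ B := by
          have h5 : ((2 : ℝ) ^ (-x)) ^ 2 * 4 ^ B = (2 : ℝ) ^ (-x + -x + ((B : ℝ) + B)) := by
            rw [Real.rpow_add (by norm_num), Real.rpow_add (by norm_num), Real.rpow_add (by norm_num),
              ← h2B, ← mul_pow, sq]
            norm_num
          rw [h5]
          calc 6 * mm ≤ 8 * (2 : ℝ) ^ (1 + (B : ℝ) / 2 + x) := by linarith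
            _ = (2 : ℝ) ^ (3 : ℝ) * (2 : ℝ) ^ (1 + (B : ℝ) / 2 + x) := by norm_num
            _ = (2 : ℝ) ^ (3 + (1 + (B : ℝ) / 2 + x)) := by rw [← Real.rpow_add (by norm_num)]
            _ ≤ _ := by
                apply rp_le3
                linarith
        rw [← hmm] at h3
        have h4 := hP B ((B / E / 3 - 3) / 2) (by omega) (height_ok B E hE (by omega))
          (2 * (2 : ℝ) ^ x + 1) mm ((2 : ℝ) ^ (-x)) ((A.card : ℝ) / Y) (by linarith) hr hm1 hm3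
          (Real.rpow_pos_of_pos (by norm_num) _) h6m (by positivity) h3
        rw [div_le_iff₀ hY'] at h4
        refine h4.trans (mul_le_mul_of_nonneg_right ?_ hY'.le)
        rw [h2B, ← Real.rpow_neg (by norm_num)]
        apply rp_le3
        linarith
      · rw [h2B]
        calc 4 * (2 : ℝ) ^ (B : ℝ) * (2 : ℝ) ^ (-(n : ℝ))
            = (2 : ℝ) ^ (2 : ℝ) * (2 : ℝ) ^ (B : ℝ) * (2 : ℝ) ^ (-(n : ℝ)) := by norm_num
          _ = (2 : ℝ) ^ ((2 : ℝ) + (B : ℝ) + -(n : ℝ)) := by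
              rw [Real.rpow_add (by norm_num), Real.rpow_add (by norm_num)]
          _ ≤ (2 : ℝ) ^ (-x) := by
              apply rp_le3
              linarith
    rw [hA'] at hgoal
    exact hgoal

end Pool.Agent.H67.QE
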