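import Pool.Agent.H55.QE.Targets

/-! Row FINE of the board `qe_modules`. -/

set_option autoImplicit false

namespace Pool.Agent.H67.QE

open Matrix Finset
open Pool.Agent.H1.LP (Clause viol supp ip kk)
open Pool.Agent.H91.UV (NC S_PARMU)
open Pool.Agent.H70.UN (ERR)
open Pool.Agent.H55.QE

theorem certifiedBy_mono {n M m : ℕ} (E : Fin M → Encoding n) (phi : Fin m → Clause n)
    (de er S S' : ℝ) (hS : S ≤ S') (h : CertifiedBy E phi de er S) :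
    CertifiedBy E phi de er S' := by
  obtain ⟨J, h1, h2, h3, h4⟩ := h
  exact ⟨J, h1, h2, h3, h4.trans hS⟩

theorem rp_le {a b : ℝ} (h : a ≤ b) : (2 : ℝ) ^ a ≤ (2 : ℝ) ^ b :=
  Real.rpow_le_rpow_of_exponent_le (by norm_num) h

theorem five_le {a b : ℝ} (h : a + 3 ≤ b) : (2 : ℝ) ^ a ≤ (2 : ℝ) ^ b / 5 := by
  have h1 : (2 : ℝ) ^ (a + 3) ≤ (2 : ℝ) ^ b := rp_le h
  have h2 : (2 : ℝ) ^ (a + 3) = (2 : ℝ) ^ a * 8 := by
    rw [Real.rpow_add (by norm_num)]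
    norm_num
  rw [h2] at h1
  have h3 : (0 : ℝ) < (2 : ℝ) ^ a := Real.rpow_pos_of_pos (by norm_num) _
  linarith

/-- the error is small: `p ^ B ≤ 2 ^ (n / 2)` -/
theorem err_small (E L n B p : ℕ) (γ : ℝ) (hL : 1 ≤ L) (hBn : B * ((4 * E + 1) * (L + 1)) ≤ n)
    (hp2 : p ≤ 2 ^ (4 * E + 1)) (hγ : γ ≤ 1 / 4) (hn : 8 ≤ n) :
    4 * (p : ℝ) ^ B * (2 : ℝ) ^ (-(n : ℝ)) ≤ (2 : ℝ) ^ (-(γ * n)) := by
  have h1 : (p : ℝ) ^ B ≤ (2 : ℝ) ^ ((n : ℝ) / 2) := by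
    have h2 : (p : ℝ) ≤ (2 : ℝ) ^ (4 * E + 1) := by exact_mod_cast hp2
    have h3 : (p : ℝ) ^ B ≤ ((2 : ℝ) ^ (4 * E + 1)) ^ B := pow_le_pow_left₀ (Nat.cast_nonneg _) h2 B
    refine h3.trans ?_
    rw [← pow_mul, ← Real.rpow_natCast]
    apply rp_le
    have h4 : (4 * E + 1) * B * 2 ≤ n := by
      refine le_trans ?_ hBn
      calc (4 * E + 1) * B * 2 = B * ((4 * E + 1) * 2) := by ring
        _ ≤ B * ((4 * E + 1) * (L + 1)) := by gcongr; omega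
    have h5 : (((4 * E + 1) * B : ℕ) : ℝ) * 2 ≤ (n : ℝ) := by exact_mod_cast h4
    linarith
  have hn' : (8 : ℝ) ≤ (n : ℝ) := by exact_mod_cast hn
  have h6 : (4 : ℝ) = (2 : ℝ) ^ (2 : ℝ) := by norm_num
  have hpos : (0 : ℝ) < (2 : ℝ) ^ (-(n : ℝ)) := Real.rpow_pos_of_pos (by norm_num) _
  calc 4 * (p : ℝ) ^ B * (2 : ℝ) ^ (-(n : ℝ))
      ≤ 4 * (2 : ℝ) ^ ((n : ℝ) / 2) * (2 : ℝ) ^ (-(n : ℝ)) := by gcongr
    _ = (2 : ℝ) ^ (2 : ℝ) * (2 : ℝ) ^ ((n : ℝ) / 2) * (2 : ℝ) ^ (-(n : ℝ)) := by rw [← h6]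
    _ = (2 : ℝ) ^ ((2 : ℝ) + (n : ℝ) / 2 + -(n : ℝ)) := by
        rw [Real.rpow_add (by norm_num), Real.rpow_add (by norm_num)]
    _ ≤ (2 : ℝ) ^ (-(γ * n)) := by
        apply rp_le
        nlinarith

theorem pf_FINE (hC : S_COREE) (hP : S_PARMU) : StatementEW := by
  classical
  intro C ε hε
  obtain ⟨ε', hε'⟩ : ∃ ε' : ℝ, ε' = min ε 1 / 2 := ⟨_, rfl⟩
  have hε'0 : 0 < ε' := by
    rw [hε']
    have := lt_min hε one_pos
    linarith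
  have hε'2 : ε' ≤ ε / 2 := by
    rw [hε']
    have := min_le_left ε 1
    linarith
  obtain ⟨E, L, K, γ, e, hE, hL, he0, he1, hEε, hγ, n₀, hn⟩ := hP (C + 1) ε' hε'0
  obtain ⟨γ', hγ'⟩ : ∃ γ' : ℝ, γ' = min γ (1 / 4) := ⟨_, rfl⟩
  have hγ'0 : 0 < γ' := by
    rw [hγ']
    exact lt_min hγ (by norm_num)
  have hγ'1 : γ' ≤ γ := by
    rw [hγ']
    exact min_le_left _ _
  have hγ'2 : γ' ≤ 1 / 4 := by
    rw [hγ']
    exact min_le_right _ _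
  refine ⟨(4 * E + 1) * (L + 1) * kk E, K, γ', hγ'0, n₀ + 8 + ⌈6 / ε⌉₊, fun n hn0 => ?_⟩
  obtain ⟨B, LAM, hkB, hBn, hKn, hLAM, hsh, hpar⟩ := hn n (by omega)
  obtain ⟨Y, m, phi, p, hY, hp1, hp2, h1, h2⟩ := hC E L n B hE hL hkB hBn
  have hn8 : 8 ≤ n := by omega
  have hn8' : (8 : ℝ) ≤ (n : ℝ) := by exact_mod_cast hn8
  have hnε : 6 ≤ ε * n := by
    have h3 : 6 / ε ≤ (⌈6 / ε⌉₊ : ℝ) := Nat.le_ceil _
    have h4 : ((⌈6 / ε⌉₊ : ℕ) : ℝ) ≤ (n : ℝ) := by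
      have : ⌈6 / ε⌉₊ ≤ n := by omega
      exact_mod_cast this
    have h5 := h3.trans h4
    rw [div_le_iff₀ hε] at h5
    linarith
  refine ⟨Y, m, phi, hY, ?_, ?_⟩
  · intro a
    obtain ⟨g1, g2, g3, g4⟩ := h1 a
    refine ⟨g1, g2.trans hKn, g3, fun x => le_trans ?_ (g4 x)⟩
    have h3 : 1 / (E : ℝ) ≤ ε := by linarith
    gcongr
  · intro M P hW
    obtain ⟨S, hS⟩ : ∃ S : ℝ, S = (2 : ℝ) ^ ((1 - ε') * n) / 5 := ⟨_, rfl⟩
    obtain ⟨W, hWW⟩ : ∃ W : ℝ, W = (2 : ℝ) ^ ((C + 1) * n) / 5 := ⟨_, rfl⟩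
    have hS1 : (2 : ℝ) ^ ((1 - ε) * n) ≤ S := by
      rw [hS]
      apply five_le
      nlinarith
    have hW1 : (2 : ℝ) ^ (C * n) ≤ W := by
      rw [hWW]
      apply five_le
      nlinarith
    have hS5 : 5 * S = (2 : ℝ) ^ ((1 - ε') * n) := by
      rw [hS]
      ring
    have hW5 : 5 * W = (2 : ℝ) ^ ((C + 1) * n) := by
      rw [hWW]
      ring
    have hde : (2 : ℝ) ^ (-(γ * n)) ≤ (2 : ℝ) ^ (-(γ' * n)) := by
      apply rp_le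
      nlinarith
    obtain ⟨A, hA⟩ : ∃ A, A = univ.filter (fun a => CertifiedBy P (phi a)
      ((2 : ℝ) ^ (-(γ' * n))) ((2 : ℝ) ^ (-(n : ℝ))) ((2 : ℝ) ^ ((1 - ε) * n))) := ⟨_, rfl⟩
    have hgoal : (A.card : ℝ) ≤ (2 : ℝ) ^ (-(γ' * n)) * Y := by
      have h3 := h2 M P A ((2 : ℝ) ^ (-(γ' * n))) ((2 : ℝ) ^ (-(n : ℝ))) S W
        (2 ^ (4 * E + 3)) LAM (1 + e) (Real.rpow_pos_of_pos (by norm_num) _)
        (err_small E L n B p γ' hL hBn hp2 hγ'2 hn8)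
        (one_le_pow₀ (by norm_num)) hLAM (by linarith) (by linarith)
        (fun a ha => by
          rw [hA] at ha
          exact certifiedBy_mono P (phi a) _ _ _ _ hS1 (mem_filter.1 ha).2) (hW.trans hW1)
      rw [hS5, hW5] at h3
      rcases h3 with h3 | h3
      · exact absurd (hde.trans h3) (not_le.2 (hpar p hp1 hp2))
      · obtain ⟨g, hg⟩ : ∃ g : ℝ, g = (2 : ℝ) ^ (γ * n) := ⟨_, rfl⟩
        have hg0 : 0 < g := by rw [hg]; exact Real.rpow_pos_of_pos (by norm_num) _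
        obtain ⟨w, hw⟩ : ∃ w : ℝ,
          w = 2 * (3 * (NC E L B : ℝ) + 1) * (2 : ℝ) ^ ((C + 1) * n) := ⟨_, rfl⟩
        have hw0 : 0 < w := by
          rw [hw]
          have : (0 : ℝ) < (2 : ℝ) ^ ((C + 1) * n) := Real.rpow_pos_of_pos (by norm_num) _
          positivity
        rw [← hg, ← hw] at hsh
        rw [← hw] at h3
        have h5 : (2 : ℝ) ^ (-(γ * n)) = g⁻¹ := by
          rw [hg, Real.rpow_neg (by norm_num)]
        have h6 : (A.card : ℝ) * (w * g) ≤ w * Y := by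
          refine le_trans ?_ h3
          exact mul_le_mul_of_nonneg_left hsh (Nat.cast_nonneg _)
        have h7 : (A.card : ℝ) * g ≤ Y := by
          have : w * ((A.card : ℝ) * g) ≤ w * Y := by
            calc w * ((A.card : ℝ) * g) = (A.card : ℝ) * (w * g) := by ring
              _ ≤ w * Y := h6
          exact le_of_mul_le_mul_left this hw0
        have h8 : (A.card : ℝ) ≤ (2 : ℝ) ^ (-(γ * n)) * Y := by
          rw [h5, inv_mul_eq_div, le_div_iff₀ hg0]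
          exact h7
        exact h8.trans (mul_le_mul_of_nonneg_right hde (Nat.cast_nonneg _))
    rw [hA] at hgoal
    exact hgoal

end Pool.Agent.H67.QE
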